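import Mathlib

set_option autoImplicit false

open Finset

namespace Pool.Agent.P.MP_54e702_co

/-- Covering a finite group by translates of a set of density at least one half. -/
lemma translates {G : Type*} [AddCommGroup G] [Fintype G] [DecidableEq G] (B : Finset G)
    (hB : Fintype.card G ≤ 2 * B.card) (t : ℕ) :
    ∃ T : Finset G, T.card ≤ t ∧
      2 ^ t * (univ.filter fun x : G => ∀ β ∈ T, x - β ∉ B).card ≤ Fintype.card G := by
  induction t with
  | zero => exact ⟨∅, le_rfl, by simp⟩
  | succ t ih =>
    obtain ⟨T, hT, hU⟩ := ih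
    set U := univ.filter fun x : G => ∀ β ∈ T, x - β ∉ B with hUdef
    have hsum : ∑ β : G, (U.filter fun x => x - β ∈ B).card = U.card * B.card := by
      simp only [Finset.card_filter]
      rw [Finset.sum_comm]
      have : ∀ x ∈ U, (∑ β : G, if x - β ∈ B then 1 else 0) = B.card := by
        intro x _
        rw [← Finset.card_filter]
        refine Finset.card_bij (fun β _ => x - β) ?_ ?_ ?_
        · intro β hβ; exact (Finset.mem_filter.mp hβ).2
        · intro a _ b _ hab; exact sub_right_injective hab
        · intro b hb; exact ⟨x - b, by simpa using hb, by simp⟩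
      rw [Finset.sum_congr rfl this]; simp
    have hex : ∃ β ∈ (univ : Finset G), U.card ≤ 2 * (U.filter fun x => x - β ∈ B).card := by
      apply Finset.exists_le_of_sum_le Finset.univ_nonempty
      rw [← Finset.mul_sum, hsum]
      simp only [Finset.sum_const, Finset.card_univ, smul_eq_mul]
      nlinarith [Nat.mul_le_mul_left U.card hB]
    obtain ⟨β, -, hβ⟩ := hex
    refine ⟨insert β T, (Finset.card_insert_le _ _).trans (by omega), ?_⟩
    have e : (univ.filter fun x : G => ∀ γ ∈ insert β T, x - γ ∉ B)
        = U.filter fun x => ¬ (x - β ∈ B) := by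
      ext x
      simp only [hUdef, Finset.mem_filter, Finset.mem_univ, true_and, Finset.forall_mem_insert]
      tauto
    rw [e]
    have := Finset.card_filter_add_card_filter_not (s := U) (fun x => x - β ∈ B)
    have h2 : 2 * (U.filter fun x => ¬ (x - β ∈ B)).card ≤ U.card := by omega
    calc 2 ^ (t + 1) * (U.filter fun x => ¬ (x - β ∈ B)).card
        = 2 ^ t * (2 * (U.filter fun x => ¬ (x - β ∈ B)).card) := by ring
      _ ≤ 2 ^ t * U.card := Nat.mul_le_mul_left _ h2
      _ ≤ _ := hU

lemma translates_cover {G : Type*} [AddCommGroup G] [Fintype G] [DecidableEq G] (B : Finset G)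
    (hB : Fintype.card G ≤ 2 * B.card) (t : ℕ) (ht : Fintype.card G < 2 ^ t) :
    ∃ T : Finset G, T.card ≤ t ∧ ∀ x : G, ∃ β ∈ T, x - β ∈ B := by
  obtain ⟨T, hT, hU⟩ := translates B hB t
  refine ⟨T, hT, fun x => ?_⟩
  by_contra hx
  push Not at hx
  have : 0 < (univ.filter fun x : G => ∀ β ∈ T, x - β ∉ B).card :=
    Finset.card_pos.mpr ⟨x, by simpa using hx⟩
  nlinarith

/-- Two different subsets of the same size have equal sums for a `1 / |G|` fraction of
assignments. -/
lemma card_collide {G : Type*} [AddCommGroup G] [Fintype G] [DecidableEq G] {k : ℕ}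
    (I J : Finset (Fin k)) (hIJ : I ≠ J) (hc : I.card = J.card) :
    Fintype.card G * (univ.filter fun a : Fin k → G => ∑ i ∈ I, a i = ∑ i ∈ J, a i).card
      = Fintype.card (Fin k → G) := by
  obtain ⟨i0, hi0I, hi0J⟩ : ∃ i ∈ I, i ∉ J := by
    by_contra hcon
    push Not at hcon
    exact hIJ (Finset.eq_of_subset_of_card_le hcon hc.ge)
  let f : (Fin k → G) →+ G :=
    { toFun := fun a => ∑ i ∈ I, a i - ∑ i ∈ J, a i
      map_zero' := by simp
      map_add' := by
        intro a b
        simp only [Pi.add_apply, Finset.sum_add_distrib]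
        abel }
  have hsurj : ∀ y : G, y ∈ Set.range f := by
    intro y
    refine ⟨Pi.single i0 y, ?_⟩
    show ∑ i ∈ I, (Pi.single i0 y : Fin k → G) i - ∑ i ∈ J, (Pi.single i0 y : Fin k → G) i = y
    rw [Finset.sum_pi_single', Finset.sum_pi_single', if_pos hi0I, if_neg hi0J, sub_zero]
  have hfib : ∀ y : G, (univ.filter fun a : Fin k → G => f a = y).card
      = (univ.filter fun a : Fin k → G => f a = 0).card := fun y =>
    AddMonoidHom.card_fiber_eq_of_mem_range f (hsurj y) (hsurj 0)
  have htot : Fintype.card (Fin k → G)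
      = ∑ y : G, (univ.filter fun a : Fin k → G => f a = y).card := by
    rw [← Finset.card_univ]
    exact Finset.card_eq_sum_card_fiberwise (fun _ _ => Finset.mem_univ _)
  rw [htot, Finset.sum_congr rfl fun y _ => hfib y]
  simp only [Finset.sum_const, Finset.card_univ, smul_eq_mul]
  congr 2
  ext a
  simp only [Finset.mem_filter, Finset.mem_univ, true_and]
  show _ ↔ ∑ i ∈ I, a i - ∑ i ∈ J, a i = 0
  rw [sub_eq_zero]

/-- In a group of order `k.choose h` some `k` elements have `h`-subset sums of density
at least one half. -/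
lemma dense_sums {G : Type*} [AddCommGroup G] [Fintype G] [DecidableEq G] (k h : ℕ)
    (hG : Fintype.card G = k.choose h) :
    ∃ a : Fin k → G, Fintype.card G ≤
      2 * ((powersetCard h (univ : Finset (Fin k))).image fun I => ∑ i ∈ I, a i).card := by
  set P := powersetCard h (univ : Finset (Fin k)) with hP
  have hPc : P.card = Fintype.card G := by simp [hP, hG]
  have hKpos : 0 < Fintype.card G := Fintype.card_pos
  set E : (Fin k → G) → ℕ := fun a =>
    ∑ I ∈ P, (P.filter fun J => ∑ i ∈ J, a i = ∑ i ∈ I, a i).card with hE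
  have hsum : ∑ a : Fin k → G, E a ≤ ∑ _a : Fin k → G, 2 * Fintype.card G := by
    simp only [hE, Finset.card_filter]
    rw [Finset.sum_comm]
    have : ∀ I ∈ P, (∑ a : Fin k → G, ∑ J ∈ P, if ∑ i ∈ J, a i = ∑ i ∈ I, a i then 1 else 0)
        ≤ 2 * Fintype.card (Fin k → G) := by
      intro I hI
      rw [Finset.sum_comm, ← Finset.add_sum_erase _ _ hI]
      have h1 : (∑ a : Fin k → G, if ∑ i ∈ I, a i = ∑ i ∈ I, a i then 1 else 0)
          = Fintype.card (Fin k → G) := by simp
      have h2 : Fintype.card G * ∑ J ∈ P.erase I,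
          (∑ a : Fin k → G, if ∑ i ∈ J, a i = ∑ i ∈ I, a i then 1 else 0)
          ≤ Fintype.card G * Fintype.card (Fin k → G) := by
        rw [Finset.mul_sum]
        have : ∀ J ∈ P.erase I, Fintype.card G *
            (∑ a : Fin k → G, if ∑ i ∈ J, a i = ∑ i ∈ I, a i then 1 else 0)
            = Fintype.card (Fin k → G) := by
          intro J hJ
          rw [← Finset.card_filter]
          obtain ⟨hJI, hJP⟩ := Finset.mem_erase.mp hJ
          refine card_collide J I hJI ?_
          rw [(Finset.mem_powersetCard.mp hJP).2, (Finset.mem_powersetCard.mp hI).2]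
        rw [Finset.sum_congr rfl this, Finset.sum_const, smul_eq_mul]
        refine Nat.mul_le_mul_right _ ?_
        rw [← hPc]; exact Finset.card_erase_le
      have h3 := Nat.le_of_mul_le_mul_left h2 hKpos
      omega
    refine (Finset.sum_le_sum this).trans (le_of_eq ?_)
    simp only [Finset.sum_const, smul_eq_mul, Finset.card_univ, hPc]
    ring
  obtain ⟨a, -, ha⟩ := Finset.exists_le_of_sum_le Finset.univ_nonempty hsum
  refine ⟨a, ?_⟩
  set f : Finset (Fin k) → G := fun I => ∑ i ∈ I, a i with hf
  set S := P.image f with hS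
  have h1 : P.card = ∑ y ∈ S, (P.filter fun J => f J = y).card :=
    Finset.card_eq_sum_card_image f P
  have h2 : E a = ∑ y ∈ S, (P.filter fun J => f J = y).card ^ 2 := by
    have : E a = ∑ I ∈ P, (fun y => (P.filter fun J => f J = y).card) (f I) := rfl
    rw [this, Finset.sum_comp (fun y => (P.filter fun J => f J = y).card) f]
    refine Finset.sum_congr rfl fun y _ => ?_
    rw [smul_eq_mul, sq]
  have h3 : (∑ y ∈ S, (P.filter fun J => f J = y).card) ^ 2
      ≤ S.card * ∑ y ∈ S, (P.filter fun J => f J = y).card ^ 2 := sq_sum_le_card_mul_sum_sq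
  rw [← h1, ← h2, hPc] at h3
  have h4 : Fintype.card G * Fintype.card G ≤ Fintype.card G * (2 * S.card) := by
    nlinarith [Nat.mul_le_mul_left S.card ha]
  exact Nat.le_of_mul_le_mul_left h4 hKpos

end Pool.Agent.P.MP_54e702_co
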