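import Mathlib

set_option autoImplicit false

open Finset

namespace Pool.Agent.P.MP_54e702_co

/-- One reduction step: write each coefficient as `M q + r` and use the relations. -/
lemma reduce_step {ι : Type*} [DecidableEq ι] (I : Finset ι) (V : ι → ℤ) (N M : ℤ) (W Q : ℤ)
    (hM : 0 < M) (hQ : 0 ≤ Q) (w : ι → ι → ℤ)
    (hw : ∀ i ∈ I, ∀ l ∈ I, |w i l| ≤ W)
    (hrel : ∀ i ∈ I, N ∣ M * V i - ∑ l ∈ I, w i l * V l)
    (c : ι → ℤ) (hc : ∀ i ∈ I, -(Q * M) ≤ c i ∧ c i < Q * M) :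
    ∃ c' : ι → ℤ, (∀ i ∈ I, -(I.card * W * Q) ≤ c' i ∧ c' i < M + I.card * W * Q) ∧
      N ∣ ∑ i ∈ I, c i * V i - ∑ i ∈ I, c' i * V i := by
  refine ⟨fun l => c l % M + ∑ i ∈ I, (c i / M) * w i l, ?_, ?_⟩
  · intro l hl
    have h1 : 0 ≤ c l % M := Int.emod_nonneg _ hM.ne'
    have h2 : c l % M < M := Int.emod_lt_of_pos _ hM
    have h3 : |∑ i ∈ I, (c i / M) * w i l| ≤ I.card * W * Q := by
      refine (Finset.abs_sum_le_sum_abs _ _).trans ?_
      have : ∀ i ∈ I, |(c i / M) * w i l| ≤ W * Q := by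
        intro i hi
        rw [abs_mul, mul_comm W Q]
        have hq : |c i / M| ≤ Q := by
          rw [abs_le]
          constructor
          · rw [Int.le_ediv_iff_mul_le hM]
            linarith [(hc i hi).1]
          · have : c i / M < Q := by
              rw [Int.ediv_lt_iff_lt_mul hM]
              exact (hc i hi).2
            exact this.le
        exact mul_le_mul hq (hw i hi l hl) (abs_nonneg _) hQ
      calc ∑ i ∈ I, |(c i / M) * w i l| ≤ ∑ i ∈ I, W * Q := Finset.sum_le_sum this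
        _ = I.card * W * Q := by simp [mul_assoc]
    rw [abs_le] at h3
    constructor <;> linarith [h3.1, h3.2]
  · have e : ∑ i ∈ I, c i * V i - ∑ l ∈ I, (c l % M + ∑ i ∈ I, (c i / M) * w i l) * V l
        = ∑ i ∈ I, (c i / M) * (M * V i - ∑ l ∈ I, w i l * V l) := by
      have e1 : ∑ l ∈ I, (∑ i ∈ I, (c i / M) * w i l) * V l
          = ∑ i ∈ I, (c i / M) * ∑ l ∈ I, w i l * V l := by
        simp only [Finset.sum_mul, Finset.mul_sum]
        rw [Finset.sum_comm]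
        refine Finset.sum_congr rfl fun i _ => Finset.sum_congr rfl fun l _ => by ring
      simp only [add_mul, Finset.sum_add_distrib, mul_sub, Finset.sum_sub_distrib, e1]
      have e2 : ∀ i ∈ I, c i * V i = c i % M * V i + c i / M * (M * V i) := by
        intro i _
        have := Int.emod_add_mul_ediv (c i) M
        calc c i * V i = (c i % M + M * (c i / M)) * V i := by rw [this]
          _ = _ := by ring
      rw [Finset.sum_congr rfl e2, Finset.sum_add_distrib]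
      ring
    rw [e]
    exact Finset.dvd_sum fun i hi => Dvd.dvd.mul_left (hrel i hi) _

lemma reduce_all {ι : Type*} [DecidableEq ι] (I : Finset ι) (V : ι → ℤ) (N M : ℤ) (W : ℤ)
    (hM : 0 < M) (hW : 0 ≤ W) (hMW : 3 * (I.card * W) ≤ M) (w : ι → ι → ℤ)
    (hw : ∀ i ∈ I, ∀ l ∈ I, |w i l| ≤ W)
    (hrel : ∀ i ∈ I, N ∣ M * V i - ∑ l ∈ I, w i l * V l) (Q : ℕ) :
    ∀ c : ι → ℤ, (∀ i ∈ I, -((Q + 2 : ℕ) * M) ≤ c i ∧ c i < (Q + 2 : ℕ) * M) →
    ∃ c' : ι → ℤ, (∀ i ∈ I, -(I.card * W * 2) ≤ c' i ∧ c' i < M + I.card * W * 2) ∧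
      N ∣ ∑ i ∈ I, c i * V i - ∑ i ∈ I, c' i * V i := by
  induction Q with
  | zero =>
    intro c hc
    exact reduce_step I V N M W 2 hM (by norm_num) w hw hrel c (by simpa using hc)
  | succ Q ih =>
    intro c hc
    obtain ⟨c1, h1, h2⟩ := reduce_step I V N M W ((Q + 1 + 2 : ℕ) : ℤ) hM (by positivity)
      w hw hrel c hc
    have hX : 0 ≤ (I.card : ℤ) * W := by positivity
    have hQ : (0 : ℤ) ≤ Q := by positivity
    obtain ⟨c2, h3, h4⟩ := ih c1 (by
      intro i hi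
      obtain ⟨a, b⟩ := h1 i hi
      push_cast at a b ⊢
      constructor <;> nlinarith)
    refine ⟨c2, h3, ?_⟩
    have := dvd_add h2 h4
    simpa using this

lemma reduce {ι : Type*} [DecidableEq ι] (I : Finset ι) (V : ι → ℤ) (N M : ℤ) (W : ℤ)
    (hM : 0 < M) (hW : 0 ≤ W) (hMW : 3 * (I.card * W) ≤ M) (w : ι → ι → ℤ)
    (hw : ∀ i ∈ I, ∀ l ∈ I, |w i l| ≤ W)
    (hrel : ∀ i ∈ I, N ∣ M * V i - ∑ l ∈ I, w i l * V l) (c : ι → ℤ) :
    ∃ c' : ι → ℤ, (∀ i ∈ I, -(I.card * W * 2) ≤ c' i ∧ c' i < M + I.card * W * 2) ∧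
      N ∣ ∑ i ∈ I, c i * V i - ∑ i ∈ I, c' i * V i := by
  refine reduce_all I V N M W hM hW hMW w hw hrel (∑ i ∈ I, (c i).natAbs) c ?_
  intro i hi
  have h1 : (c i).natAbs ≤ ∑ i ∈ I, (c i).natAbs :=
    Finset.single_le_sum (f := fun i => (c i).natAbs) (fun _ _ => Nat.zero_le _) hi
  have h2 : |c i| ≤ ((∑ i ∈ I, (c i).natAbs : ℕ) : ℤ) := by
    rw [← Int.natCast_natAbs]; exact_mod_cast h1
  rw [abs_le] at h2
  have h3 : (0 : ℤ) ≤ ((∑ i ∈ I, (c i).natAbs : ℕ) : ℤ) := by positivity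
  rw [Nat.cast_add]
  generalize ((∑ i ∈ I, (c i).natAbs : ℕ) : ℤ) = S at *
  push_cast
  constructor <;> nlinarith [h2.1, h2.2]

/-- Lagrange identity for the top coefficient. -/
lemma lagrange_pow {k h : ℕ} (I : Finset (Fin k)) (hI : I.card = h) (e : ℕ) (he : e < h) :
    ∑ l ∈ I, ((l : ℕ) : ℚ) ^ e / ∏ j ∈ I.erase l, (((l : ℕ) : ℚ) - ((j : ℕ) : ℚ))
      = if e = h - 1 then 1 else 0 := by
  have hinj : Set.InjOn (fun i : Fin k => ((i : ℕ) : ℚ)) I := by
    intro a _ b _ hab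
    simp only [Nat.cast_inj] at hab
    exact Fin.ext hab
  have := Lagrange.coeff_eq_sum (s := I) (v := fun i : Fin k => ((i : ℕ) : ℚ)) hinj
    (P := Polynomial.X ^ e) (by rw [Polynomial.degree_X_pow, hI]; exact_mod_cast he)
  rw [Polynomial.coeff_X_pow, hI] at this
  simp only [Polynomial.eval_pow, Polynomial.eval_X] at this
  rw [← this]
  by_cases h1 : e = h - 1
  · simp [h1]
  · simp [h1, Ne.symm h1]

/-- Approximate lines in the cyclic group of order `M ^ h`: `k` directions such that any `h` of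
them generate everything with coefficients in a window of length `M + O(1)`. -/
lemma approx_lines (k h : ℕ) (hh : 1 ≤ h) : ∃ D C : ℕ, 0 < D ∧ ∀ M : ℕ, Nat.Coprime M D → C ≤ M →
    ∃ V : Fin k → ℤ, ∀ I : Finset (Fin k), I.card = h → ∀ x : ℤ, ∃ c : Fin k → ℤ,
      (∀ i ∈ I, -(C : ℤ) ≤ c i ∧ c i < M + C) ∧ ((M : ℤ) ^ h) ∣ x - ∑ i ∈ I, c i * V i := by
  set P : Fin k → Finset (Fin k) → ℤ :=
    fun l I => ∏ j ∈ I.erase l, (((l : ℕ) : ℤ) - ((j : ℕ) : ℤ)) with hP
  have hPne : ∀ l I, P l I ≠ 0 := by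
    intro l I
    refine Finset.prod_ne_zero_iff.mpr fun j hj => ?_
    have := (Finset.mem_erase.mp hj).1
    intro h0
    apply this
    apply Fin.ext
    omega
  set D : ℕ := (∏ l : Fin k, P l univ).natAbs with hD
  have hDpos : 0 < D := by
    rw [hD, Int.natAbs_pos]
    exact Finset.prod_ne_zero_iff.mpr fun l _ => hPne l univ
  have hdvd : ∀ l I, P l I ∣ (D : ℤ) := by
    intro l I
    rw [hD, Int.dvd_natAbs]
    refine Dvd.dvd.trans ?_ (Finset.dvd_prod_of_mem _ (Finset.mem_univ l))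
    exact Finset.prod_dvd_prod_of_subset _ _ _ (Finset.erase_subset_erase _ (Finset.subset_univ _))
  set W : ℕ := k * D + k ^ h * D with hW
  refine ⟨D, 3 * (h * W) + 1, hDpos, fun M hMD hM => ?_⟩
  refine ⟨fun l => ∑ j ∈ range h, (M : ℤ) ^ j * (((l : ℕ) : ℤ) * D) ^ (h - 1 - j), ?_⟩
  set V : Fin k → ℤ := fun l => ∑ j ∈ range h, (M : ℤ) ^ j * (((l : ℕ) : ℤ) * D) ^ (h - 1 - j)
    with hV
  intro I hI x
  set δ : Fin k → ℤ := fun l => (D : ℤ) / P l I with hδ
  have hδabs : ∀ l, |δ l| ≤ D := by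
    intro l
    have h1 : δ l * P l I = D := Int.ediv_mul_cancel (hdvd l I)
    have h2 : 1 ≤ |P l I| := Int.one_le_abs (hPne l I)
    have h3 : |δ l| * |P l I| = D := by rw [← abs_mul, h1]; simp
    nlinarith [abs_nonneg (δ l)]
  have hkey : ∑ l ∈ I, δ l * V l = (D : ℤ) ^ h := by
    have hq : ((∑ l ∈ I, δ l * V l : ℤ) : ℚ) = (((D : ℤ) ^ h : ℤ) : ℚ) := by
      have hδq : ∀ l, (δ l : ℚ) = (D : ℚ) / ∏ j ∈ I.erase l, (((l : ℕ) : ℚ) - ((j : ℕ) : ℚ)) := by
        intro l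
        have h1 : δ l * P l I = D := Int.ediv_mul_cancel (hdvd l I)
        have h2 : ((P l I : ℤ) : ℚ) = ∏ j ∈ I.erase l, (((l : ℕ) : ℚ) - ((j : ℕ) : ℚ)) := by
          simp [hP]
        rw [← h2, eq_div_iff (by exact_mod_cast hPne l I)]
        exact_mod_cast h1
      push_cast
      simp only [hδq, hV]
      push_cast
      simp only [Finset.mul_sum]
      rw [Finset.sum_comm]
      have : ∀ j ∈ range h, ∑ l ∈ I, (D : ℚ) / (∏ j ∈ I.erase l, (((l : ℕ) : ℚ) - ((j : ℕ) : ℚ))) *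
          ((M : ℚ) ^ j * (((l : ℕ) : ℚ) * D) ^ (h - 1 - j))
          = if j = 0 then (D : ℚ) ^ h else 0 := by
        intro j hj
        have hj' := Finset.mem_range.mp hj
        have e := lagrange_pow I hI (h - 1 - j) (by omega)
        have e2 : ∑ l ∈ I, (D : ℚ) / (∏ j ∈ I.erase l, (((l : ℕ) : ℚ) - ((j : ℕ) : ℚ))) *
          ((M : ℚ) ^ j * (((l : ℕ) : ℚ) * D) ^ (h - 1 - j))
          = (D : ℚ) * M ^ j * D ^ (h - 1 - j) * ∑ l ∈ I, ((l : ℕ) : ℚ) ^ (h - 1 - j) /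
            ∏ j ∈ I.erase l, (((l : ℕ) : ℚ) - ((j : ℕ) : ℚ)) := by
          rw [Finset.mul_sum]
          refine Finset.sum_congr rfl fun l _ => ?_
          rw [mul_pow]; ring
        rw [e2, e]
        by_cases h0 : j = 0
        · subst h0
          simp only [Nat.sub_zero, if_true, pow_zero, mul_one]
          rw [← pow_succ']; congr 1; omega
        · have : ¬ (h - 1 - j = h - 1) := by omega
          simp [h0, this]
      rw [Finset.sum_congr rfl this, Finset.sum_ite_eq']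
      simp only [Finset.mem_range]
      rw [if_pos (by omega)]
    exact_mod_cast hq
  have hrel : ∀ i ∈ I, ((M : ℤ) ^ h) ∣ (M : ℤ) * V i -
      ∑ l ∈ I, ((if l = i then ((i : ℕ) : ℤ) * D else 0) - ((i : ℕ) : ℤ) ^ h * δ l) * V l := by
    intro i hi
    have g := geom_sum₂_mul (M : ℤ) (((i : ℕ) : ℤ) * D) h
    have e : ∑ l ∈ I, ((if l = i then ((i : ℕ) : ℤ) * D else 0) - ((i : ℕ) : ℤ) ^ h * δ l) * V l
        = ((i : ℕ) : ℤ) * D * V i - ((i : ℕ) : ℤ) ^ h * (D : ℤ) ^ h := by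
      simp only [sub_mul, Finset.sum_sub_distrib, ite_mul, zero_mul]
      rw [Finset.sum_ite_eq' I i, if_pos hi, ← hkey, Finset.mul_sum I]
      simp only [mul_assoc]
    rw [e]
    have g2 : V i * ((M : ℤ) - ((i : ℕ) : ℤ) * D) = (M : ℤ) ^ h - (((i : ℕ) : ℤ) * D) ^ h := g
    refine ⟨1, ?_⟩
    rw [mul_pow] at g2
    linarith
  have hcop : IsCoprime ((M : ℤ) ^ h) ((D : ℤ) ^ h) :=
    IsCoprime.pow (Nat.isCoprime_iff_coprime.mpr hMD)
  obtain ⟨a, b, hab⟩ := hcop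
  have hMpos : (0 : ℤ) < M := by exact_mod_cast (by omega : 0 < M)
  obtain ⟨c, hc1, hc2⟩ := reduce I V ((M : ℤ) ^ h) M W hMpos (by positivity)
    (by rw [hI]; have : 3 * (h * W) ≤ M := by omega
        exact_mod_cast this)
    (fun i l => (if l = i then ((i : ℕ) : ℤ) * D else 0) - ((i : ℕ) : ℤ) ^ h * δ l)
    (by
      intro i _ l _
      have hik : ((i : ℕ) : ℤ) ≤ k := by exact_mod_cast i.2.le
      have hi0 : (0 : ℤ) ≤ ((i : ℕ) : ℤ) := by positivity
      have hD0 : (0 : ℤ) ≤ D := by positivity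
      refine (abs_sub _ _).trans ?_
      rw [hW]; push_cast
      refine add_le_add ?_ ?_
      · split_ifs
        · rw [abs_of_nonneg (by positivity)]
          exact mul_le_mul_of_nonneg_right hik hD0
        · simp only [abs_zero]; positivity
      · rw [abs_mul, abs_of_nonneg (by positivity : (0 : ℤ) ≤ ((i : ℕ) : ℤ) ^ h)]
        exact mul_le_mul (pow_le_pow_left₀ hi0 hik h) (hδabs l) (abs_nonneg _) (by positivity))
    hrel (fun l => x * b * δ l)
  refine ⟨c, ?_, ?_⟩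
  · intro i hi
    obtain ⟨u, v⟩ := hc1 i hi
    rw [hI] at u v
    have hX : (0 : ℤ) ≤ (h : ℤ) * W := by positivity
    push_cast
    constructor <;> linarith
  · have e : ∑ i ∈ I, x * b * δ i * V i = x * b * (D : ℤ) ^ h := by
      rw [← hkey, Finset.mul_sum]
      simp only [mul_assoc]
    rw [e] at hc2
    have e2 : x - ∑ i ∈ I, c i * V i
        = (x * b * (D : ℤ) ^ h - ∑ i ∈ I, c i * V i) + (M : ℤ) ^ h * (x * a) := by
      have : x = x * (a * (M : ℤ) ^ h + b * (D : ℤ) ^ h) := by rw [hab, mul_one]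
      linarith
    rw [e2]
    exact dvd_add hc2 (Dvd.intro _ rfl)

end Pool.Agent.P.MP_54e702_co
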