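import Mathlib
import Pool.Agent.P.MP_54e702_co.Lines

set_option autoImplicit false

open Finset
open scoped Pointwise

namespace Pool.Agent.P.MP_54e702_co

lemma sum_mem_nsmul {G ι : Type*} [AddCommMonoid G] [DecidableEq G] [DecidableEq ι]
    (A : Finset G) (I : Finset ι) (e : ι → G) (he : ∀ i ∈ I, e i ∈ A) :
    ∑ i ∈ I, e i ∈ I.card • A := by
  induction I using Finset.induction_on with
  | empty => simp
  | insert i I hi ih =>
    rw [Finset.sum_insert hi, Finset.card_insert_of_notMem hi, succ_nsmul']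
    exact Finset.add_mem_add (he i (Finset.mem_insert_self _ _))
      (ih fun j hj => he j (Finset.mem_insert_of_mem hj))

/-- Lifting `h`-subset sums from `ZMod K` to the cyclic group of order `K * M ^ h`. -/
lemma lift (k h K : ℕ) (hh : 1 ≤ h) (hK : 0 < K) (a : Fin k → ZMod K) :
    ∃ D C : ℕ, 0 < D ∧ ∀ M : ℕ, Nat.Coprime M D → C ≤ M → 0 < M →
      ∃ A : Finset ℤ, A.card ≤ k * (M + 2 * C) ∧ (∀ y ∈ A, 0 ≤ y ∧ y < (K : ℤ) * (M : ℤ) ^ h) ∧
        ∀ I : Finset (Fin k), I.card = h → ∀ x : ℤ, (x : ZMod K) = ∑ i ∈ I, a i →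
          ∃ e : Fin k → ℤ, (∀ i ∈ I, e i ∈ A) ∧ ((K : ℤ) * (M : ℤ) ^ h) ∣ x - ∑ i ∈ I, e i := by
  have : NeZero K := ⟨hK.ne'⟩
  obtain ⟨D, C, hD, H⟩ := approx_lines k h hh
  refine ⟨D, C, hD, fun M hMD hCM hM => ?_⟩
  obtain ⟨V, hV⟩ := H M hMD hCM
  set N : ℤ := (K : ℤ) * (M : ℤ) ^ h with hN
  have hNpos : 0 < N := by positivity
  refine ⟨((univ : Finset (Fin k)) ×ˢ Finset.Ico (-(C : ℤ)) (M + C)).image
    fun p => (((a p.1).val : ℤ) + K * (p.2 * V p.1)) % N, ?_, ?_, ?_⟩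
  · refine Finset.card_image_le.trans (le_of_eq ?_)
    rw [Finset.card_product, Finset.card_univ, Fintype.card_fin, Int.card_Ico]
    congr 1
    omega
  · intro y hy
    obtain ⟨p, -, rfl⟩ := Finset.mem_image.mp hy
    exact ⟨Int.emod_nonneg _ hNpos.ne', Int.emod_lt_of_pos _ hNpos⟩
  · intro I hI x hx
    have h1 : (K : ℤ) ∣ x - ∑ i ∈ I, ((a i).val : ℤ) := by
      rw [← ZMod.intCast_zmod_eq_zero_iff_dvd]
      push_cast
      rw [hx]
      simp
    obtain ⟨x', hx'⟩ := h1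
    obtain ⟨c, hc1, hc2⟩ := hV I hI x'
    refine ⟨fun i => (((a i).val : ℤ) + K * (c i * V i)) % N, ?_, ?_⟩
    · intro i hi
      exact Finset.mem_image.mpr ⟨(i, c i), Finset.mem_product.mpr
        ⟨Finset.mem_univ _, Finset.mem_Ico.mpr (hc1 i hi)⟩, rfl⟩
    · have h2 : N ∣ ∑ i ∈ I, (((a i).val : ℤ) + K * (c i * V i))
          - ∑ i ∈ I, (((a i).val : ℤ) + K * (c i * V i)) % N := by
        rw [← Finset.sum_sub_distrib]
        exact Finset.dvd_sum fun i _ => Int.dvd_self_sub_emod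
      have h3 : N ∣ x - ∑ i ∈ I, (((a i).val : ℤ) + K * (c i * V i)) := by
        rw [Finset.sum_add_distrib, ← Finset.mul_sum, ← sub_sub, hx', ← mul_sub]
        exact mul_dvd_mul_left _ hc2
      have := dvd_add h3 h2
      simpa using this

/-- The construction for an arbitrary modulus `n`. -/
lemma lift_all (k h K t : ℕ) (hh : 1 ≤ h) (hK : 0 < K) (a : Fin k → ZMod K)
    (T : Finset (ZMod K)) (hT : T.card ≤ t)
    (hcov : ∀ x : ZMod K, ∃ β ∈ T, ∃ I : Finset (Fin k), I.card = h ∧ x - β = ∑ i ∈ I, a i) :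
    ∃ D C : ℕ, 0 < D ∧ ∀ M : ℕ, Nat.Coprime M D → C ≤ M → 0 < M → ∀ n : ℕ, 0 < n →
      ∃ A : Finset (ZMod n), (∀ g : ZMod n, g ∈ (h + 1) • A) ∧
        A.card ≤ k * (M + 2 * C) + t * (n / (K * M ^ h) + h + 2) := by
  have : NeZero K := ⟨hK.ne'⟩
  obtain ⟨D, C, hD, H⟩ := lift k h K hh hK a
  refine ⟨D, C, hD, fun M hMD hCM hM n hn => ?_⟩
  have : NeZero n := ⟨hn.ne'⟩
  obtain ⟨A, hA1, hA2, hA3⟩ := H M hMD hCM hM
  set N : ℕ := K * M ^ h with hN
  have hNc : (K : ℤ) * (M : ℤ) ^ h = (N : ℤ) := by rw [hN]; push_cast; ring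
  rw [hNc] at hA2 hA3
  have hNpos : 0 < N := by positivity
  have hKN : K ≤ N := Nat.le_mul_of_pos_right _ (by positivity)
  set A2 : Finset ℤ := (T ×ˢ range (n / N + h + 2)).image
    fun p => ((p.1.val : ℤ) + (N : ℤ) * (p.2 : ℤ)) with hA2def
  refine ⟨(A ∪ A2).image fun y : ℤ => (y : ZMod n), ?_, ?_⟩
  · intro g
    set r : ℕ := (g - ((h * N + K : ℕ) : ZMod n)).val with hr
    have hrn : r < n := ZMod.val_lt _
    set X : ℤ := ((h * N + K + r : ℕ) : ℤ) with hX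
    have hXg : (X : ZMod n) = g := by
      rw [hX, Int.cast_natCast, Nat.cast_add, hr, ZMod.natCast_zmod_val]
      ring
    obtain ⟨β, hβ, I, hI, hsum⟩ := hcov (X : ZMod K)
    obtain ⟨e, he1, j, hj⟩ := hA3 I hI (X - (β.val : ℤ)) (by
      push_cast
      rw [← hsum]
      simp)
    have hβK : (β.val : ℤ) < K := by exact_mod_cast ZMod.val_lt β
    have hβ0 : (0 : ℤ) ≤ (β.val : ℤ) := by positivity
    have hs0 : 0 ≤ ∑ i ∈ I, e i := Finset.sum_nonneg fun i hi => (hA2 _ (he1 i hi)).1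
    have hs1 : ∑ i ∈ I, e i ≤ h * (N : ℤ) := by
      calc ∑ i ∈ I, e i ≤ ∑ i ∈ I, (N : ℤ) := Finset.sum_le_sum fun i hi => (hA2 _ (he1 i hi)).2.le
        _ = h * (N : ℤ) := by simp [hI]
    have hNz : (0 : ℤ) < N := by exact_mod_cast hNpos
    have hXe : X = (h : ℤ) * N + K + r := by rw [hX]; push_cast; ring
    have hr0 : (0 : ℤ) ≤ r := by positivity
    have hj0 : 0 ≤ j := by
      have : 0 ≤ (N : ℤ) * j := by rw [← hj]; linarith
      exact nonneg_of_mul_nonneg_right this hNz |> fun h => by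
        rcases le_or_gt 0 j with h' | h'
        · exact h'
        · nlinarith
    have hj1 : j < ((n / N + h + 2 : ℕ) : ℤ) := by
      have h1 : (n : ℤ) < (N : ℤ) * (((n / N : ℕ) : ℤ) + 1) := by
        have := Nat.lt_mul_div_succ n hNpos
        exact_mod_cast this
      have h2 : (r : ℤ) < n := by exact_mod_cast hrn
      have h3 : (K : ℤ) ≤ N := by exact_mod_cast hKN
      have h4 : (N : ℤ) * j < (N : ℤ) * (((n / N : ℕ) : ℤ) + h + 2) := by
        rw [← hj]; nlinarith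
      have := lt_of_mul_lt_mul_left h4 hNz.le
      push_cast at this ⊢
      exact this
    lift j to ℕ using hj0
    have hj2 : j < n / N + h + 2 := by exact_mod_cast hj1
    have hlast : ((β.val : ℤ) + (N : ℤ) * (j : ℤ)) ∈ A2 :=
      Finset.mem_image.mpr ⟨(β, j), Finset.mem_product.mpr ⟨hβ, Finset.mem_range.mpr hj2⟩, rfl⟩
    have hg : g = (∑ i ∈ I, ((e i : ℤ) : ZMod n)) +
        ((((β.val : ℤ) + (N : ℤ) * (j : ℤ) : ℤ)) : ZMod n) := by
      rw [← hXg, ← Int.cast_sum, ← Int.cast_add]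
      congr 1
      linarith
    rw [hg, succ_nsmul, ← hI]
    refine Finset.add_mem_add (sum_mem_nsmul _ I _ fun i hi => ?_) ?_
    · exact Finset.mem_image_of_mem _ (Finset.mem_union_left _ (he1 i hi))
    · exact Finset.mem_image_of_mem _ (Finset.mem_union_right _ hlast)
  · refine Finset.card_image_le.trans ((Finset.card_union_le _ _).trans (add_le_add hA1 ?_))
    refine Finset.card_image_le.trans ?_
    rw [Finset.card_product, Finset.card_range]
    exact Nat.mul_le_mul_right _ hT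

/-- The construction for the moduli `K * M ^ h`. -/
lemma lift_exact (k h K : ℕ) (hh : 1 ≤ h) (hK : 0 < K) (a : Fin k → ZMod K)
    (hcov : ∀ x : ZMod K, ∃ I : Finset (Fin k), I.card = h ∧ x = ∑ i ∈ I, a i) :
    ∃ D C : ℕ, 0 < D ∧ ∀ M : ℕ, Nat.Coprime M D → C ≤ M → 0 < M →
      ∃ A : Finset (ZMod (K * M ^ h)), (∀ g : ZMod (K * M ^ h), g ∈ h • A) ∧
        A.card ≤ k * (M + 2 * C) := by
  obtain ⟨D, C, hD, H⟩ := lift k h K hh hK a
  refine ⟨D, C, hD, fun M hMD hCM hM => ?_⟩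
  obtain ⟨A, hA1, -, hA3⟩ := H M hMD hCM hM
  refine ⟨A.image fun y : ℤ => (y : ZMod (K * M ^ h)), ?_, Finset.card_image_le.trans hA1⟩
  intro g
  obtain ⟨X, rfl⟩ := ZMod.intCast_surjective g
  obtain ⟨I, hI, hsum⟩ := hcov (X : ZMod K)
  obtain ⟨e, he1, hdvd⟩ := hA3 I hI X hsum
  have hg : (X : ZMod (K * M ^ h)) = ∑ i ∈ I, ((e i : ℤ) : ZMod (K * M ^ h)) := by
    rw [← Int.cast_sum, ← sub_eq_zero, ← Int.cast_sub, ZMod.intCast_zmod_eq_zero_iff_dvd]
    exact_mod_cast hdvd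
  rw [hg]
  have := sum_mem_nsmul (A.image fun y : ℤ => (y : ZMod (K * M ^ h))) I
    (fun i => ((e i : ℤ) : ZMod (K * M ^ h))) fun i hi => Finset.mem_image_of_mem _ (he1 i hi)
  rwa [hI] at this

end Pool.Agent.P.MP_54e702_co
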