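import Mathlib
import Pool.Agent.P.MP_54e702_co.Lift
import Pool.Agent.P.MP_54e702_co.Dense

set_option autoImplicit false

open Finset Filter
open scoped Pointwise

namespace Pool.Agent.P.MP_54e702_co

lemma exists_coprime_near (D : ℕ) (hD : 0 < D) (y : ℝ) (hy : 0 ≤ y) :
    ∃ M : ℕ, Nat.Coprime M D ∧ 0 < M ∧ y ≤ M ∧ (M : ℝ) ≤ y + D + 1 := by
  refine ⟨1 + D * ⌈y / D⌉₊, by simp, by omega, ?_, ?_⟩
  · have hD' : (0 : ℝ) < D := by exact_mod_cast hD
    have h1 : y / D ≤ (⌈y / D⌉₊ : ℝ) := Nat.le_ceil _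
    rw [div_le_iff₀ hD'] at h1
    push_cast; linarith
  · have hD' : (0 : ℝ) < D := by exact_mod_cast hD
    have h1 : (⌈y / D⌉₊ : ℝ) < y / D + 1 := Nat.ceil_lt_add_one (by positivity)
    have h2 : (D : ℝ) * (⌈y / D⌉₊ : ℝ) ≤ D * (y / D + 1) := mul_le_mul_of_nonneg_left h1.le hD'.le
    have h3 : (D : ℝ) * (y / D + 1) = y + D := by field_simp
    push_cast; linarith

/-- Asymptotic form of `lift_all`. -/
lemma lift_all_asymp (k h K t : ℕ) (hh : 1 ≤ h) (hK : 0 < K) (hk : 0 < k) (ht : 0 < t)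
    (a : Fin k → ZMod K) (T : Finset (ZMod K)) (hT : T.card ≤ t)
    (hcov : ∀ x : ZMod K, ∃ β ∈ T, ∃ I : Finset (Fin k), I.card = h ∧ x - β = ∑ i ∈ I, a i)
    (P : ℝ) (hP : (t : ℝ) * k ^ h * (h + 1) ^ (h + 1) / (K * h ^ h) < P) :
    ∃ N : ℕ, ∀ n : ℕ, N ≤ n → ∃ A : Finset (ZMod n), (∀ g : ZMod n, g ∈ (h + 1) • A) ∧
      (A.card : ℝ) ≤ P ^ ((1 : ℝ) / ((h + 1 : ℕ) : ℝ)) * (n : ℝ) ^ ((1 : ℝ) / ((h + 1 : ℕ) : ℝ)) := by
  obtain ⟨D, C, hD, H⟩ := lift_all k h K t hh hK a T hT hcov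
  set σ : ℝ := (1 : ℝ) / ((h + 1 : ℕ) : ℝ) with hσ
  have hσpos : 0 < σ := by rw [hσ]; positivity
  have hh' : (0 : ℝ) < h := by exact_mod_cast hh
  have hK' : (0 : ℝ) < K := by exact_mod_cast hK
  have hk' : (0 : ℝ) < k := by exact_mod_cast hk
  have ht' : (0 : ℝ) < t := by exact_mod_cast ht
  have hroot : ∀ z : ℝ, 0 ≤ z → (z ^ σ) ^ (h + 1) = z := by
    intro z hz
    rw [hσ, one_div]
    exact Real.rpow_inv_natCast_pow hz (by omega)
  set κ : ℝ := (h * t / (k * K) : ℝ) ^ σ with hκ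
  have hκpos : 0 < κ := Real.rpow_pos_of_pos (by positivity) _
  have hκpow : κ ^ (h + 1) = h * t / (k * K) := hroot _ (by positivity)
  set α : ℝ := k * κ * (h + 1) / h with hα
  have hαpos : 0 < α := by positivity
  have hαpow : α ^ (h + 1) = (t : ℝ) * k ^ h * (h + 1) ^ (h + 1) / (K * h ^ h) := by
    rw [hα, div_pow, mul_pow, mul_pow, hκpow]
    field_simp
    ring
  have hPpos : 0 < P := lt_trans (by positivity) hP
  have hαP : α < P ^ σ := by
    refine lt_of_pow_lt_pow_left₀ (h + 1) (Real.rpow_nonneg hPpos.le _) ?_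
    rw [hαpow, hroot P hPpos.le]; exact hP
  have hlim : Tendsto (fun n : ℕ => (n : ℝ) ^ σ) atTop atTop :=
    (tendsto_rpow_atTop hσpos).comp tendsto_natCast_atTop_atTop
  set β : ℝ := k * (D + 1 + 2 * C) + t * (h + 2) with hβ
  have hev1 := hlim.eventually_ge_atTop (β / (P ^ σ - α))
  have hev2 := hlim.eventually_ge_atTop (C / κ)
  obtain ⟨N, hN⟩ := eventually_atTop.mp ((hev1.and hev2).and (eventually_ge_atTop 1))
  refine ⟨N, fun n hn => ?_⟩
  obtain ⟨⟨h1, h2⟩, h3⟩ := hN n hn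
  have hn' : (0 : ℝ) < n := by exact_mod_cast h3
  set z : ℝ := (n : ℝ) ^ σ with hz
  have hzpos : 0 < z := Real.rpow_pos_of_pos hn' _
  have hzpow : z ^ (h + 1) = n := hroot _ hn'.le
  set y : ℝ := κ * z with hy
  have hypos : 0 < y := by positivity
  obtain ⟨M, hMD, hM, hyM, hMy⟩ := exists_coprime_near D hD y hypos.le
  have hCM : C ≤ M := by
    rw [div_le_iff₀ hκpos] at h2
    have : (C : ℝ) ≤ M := by nlinarith
    exact_mod_cast this
  obtain ⟨A, hA1, hA2⟩ := H M hMD hCM hM n h3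
  refine ⟨A, hA1, ?_⟩
  have hA3 : (A.card : ℝ) ≤ k * (M + 2 * C) + t * (((n / (K * M ^ h) : ℕ) : ℝ) + h + 2) := by
    exact_mod_cast hA2
  have hdiv : ((n / (K * M ^ h) : ℕ) : ℝ) ≤ n / (K * y ^ h) := by
    refine Nat.cast_div_le.trans ?_
    push_cast
    refine div_le_div_of_nonneg_left hn'.le (by positivity) ?_
    exact mul_le_mul_of_nonneg_left (pow_le_pow_left₀ hypos.le hyM h) hK'.le
  have hyp : y ^ (h + 1) = h * t / (k * K) * n := by rw [hy, mul_pow, hκpow, hzpow]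
  have hq : (t : ℝ) * (n / (K * y ^ h)) = k * y / h := by
    rw [pow_succ] at hyp
    field_simp at hyp ⊢
    linarith
  have hαz : α * z = k * y + k * y / h := by
    rw [hα, hy]; field_simp
  rw [div_le_iff₀ (by linarith)] at h1
  have h4 : (t : ℝ) * ((n / (K * M ^ h) : ℕ) : ℝ) ≤ k * y / h := by
    rw [← hq]; exact mul_le_mul_of_nonneg_left hdiv ht'.le
  have h5 : (k : ℝ) * M ≤ k * (y + D + 1) := mul_le_mul_of_nonneg_left hMy hk'.le
  calc (A.card : ℝ) ≤ k * M + t * ((n / (K * M ^ h) : ℕ) : ℝ) + (k * (2 * C) + t * (h + 2)) := by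
        linarith
    _ ≤ α * z + β := by rw [hαz, hβ]; linarith
    _ ≤ P ^ σ * z := by linarith

lemma desc_lower (k : ℕ) (j : ℕ) (hj : j ≤ k) :
    (k : ℝ) ^ j * (2 * k - j ^ 2) ≤ 2 * k * (k.descFactorial j : ℝ) := by
  induction j with
  | zero => simp
  | succ j ih =>
    have ih' := ih (by omega)
    rw [Nat.descFactorial_succ, Nat.cast_mul, Nat.cast_sub (by omega)]
    have hjk : (0 : ℝ) ≤ (k : ℝ) - j := by
      have : (j : ℝ) ≤ k := by exact_mod_cast (by omega : j ≤ k)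
      linarith
    have h1 := mul_le_mul_of_nonneg_left ih' hjk
    have hkj : (0 : ℝ) ≤ (k : ℝ) ^ j := by positivity
    have hj0 : (0 : ℝ) ≤ j := by positivity
    have hk0 : (0 : ℝ) ≤ k := by positivity
    have h2 : (k : ℝ) * (2 * k - (j + 1) ^ 2) ≤ (k - j) * (2 * k - j ^ 2) := by
      nlinarith [mul_nonneg hj0 (mul_nonneg hj0 hj0)]
    have h3 := mul_le_mul_of_nonneg_left h2 hkj
    push_cast
    rw [pow_succ]
    nlinarith

lemma pow_le_two_choose (h : ℕ) (hh : 1 ≤ h) :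
    (((h * h : ℕ) : ℝ)) ^ h ≤ 2 * (h.factorial : ℝ) * ((h * h).choose h : ℝ) := by
  have h1 := desc_lower (h * h) h (Nat.le_mul_self h)
  rw [Nat.descFactorial_eq_factorial_mul_choose] at h1
  have hh' : (0 : ℝ) < h := by exact_mod_cast hh
  have hk : (0 : ℝ) < ((h * h : ℕ) : ℝ) := by positivity
  have e : 2 * ((h * h : ℕ) : ℝ) - (h : ℝ) ^ 2 = ((h * h : ℕ) : ℝ) := by push_cast; ring
  rw [e] at h1
  rw [Nat.cast_mul h.factorial] at h1
  have h2 : ((h * h : ℕ) : ℝ) * (((h * h : ℕ) : ℝ)) ^ h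
      ≤ ((h * h : ℕ) : ℝ) * (2 * (h.factorial : ℝ) * ((h * h).choose h : ℝ)) := by linarith
  exact le_of_mul_le_mul_left h2 hk

lemma log_choose_le (h : ℕ) (hh : 1 ≤ h) :
    (Nat.log 2 ((h * h).choose h) : ℝ) * Real.log 2 ≤ h * (1 + Real.log h) := by
  have hh' : (0 : ℝ) < h := by exact_mod_cast hh
  have hK : 0 < (h * h).choose h := Nat.choose_pos (Nat.le_mul_self h)
  have h1 : (2 : ℝ) ^ Nat.log 2 ((h * h).choose h) ≤ ((h * h).choose h : ℝ) := by
    exact_mod_cast Nat.pow_log_le_self 2 hK.ne'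
  have h2 : ((h * h).choose h : ℝ) ≤ ((h * h : ℕ) : ℝ) ^ h / (h.factorial : ℝ) :=
    Nat.choose_le_pow_div h (h * h)
  have h3 : (h : ℝ) ^ h / (h.factorial : ℝ) ≤ Real.exp h := Real.pow_div_factorial_le_exp _ hh'.le h
  have h4 : ((h * h : ℕ) : ℝ) ^ h / (h.factorial : ℝ) ≤ (h : ℝ) ^ h * Real.exp h := by
    push_cast
    rw [mul_pow, mul_div_assoc]
    exact mul_le_mul_of_nonneg_left h3 (by positivity)
  have h5 := Real.log_le_log (by positivity) (h1.trans (h2.trans h4))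
  rw [Real.log_pow, Real.log_mul (by positivity) (by positivity), Real.log_pow, Real.log_exp] at h5
  linarith

theorem main_all (s : ℕ) (hs : 2 ≤ s) : ∃ N : ℕ, ∀ n : ℕ, N ≤ n → ∃ A : Finset (ZMod n),
    (∀ g : ZMod n, g ∈ s • A) ∧
      (A.card : ℝ) ≤ (8 * s * (1 + Real.log s) * (s.factorial : ℝ)) ^ ((1 : ℝ) / (s : ℝ)) *
        (n : ℝ) ^ ((1 : ℝ) / (s : ℝ)) := by
  obtain ⟨h, rfl⟩ : ∃ h, s = h + 1 := ⟨s - 1, by omega⟩
  have hh : 1 ≤ h := by omega
  set K := (h * h).choose h with hKdef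
  have hK : 0 < K := Nat.choose_pos (Nat.le_mul_self h)
  have : NeZero K := ⟨hK.ne'⟩
  obtain ⟨a, ha⟩ := dense_sums (G := ZMod K) (h * h) h (by rw [ZMod.card])
  obtain ⟨T, hT, hcov⟩ := translates_cover _ ha (Nat.log 2 K + 1)
    (by rw [ZMod.card]; exact Nat.lt_pow_succ_log_self (by norm_num) K)
  refine lift_all_asymp (h * h) h K (Nat.log 2 K + 1) hh hK (by positivity) (by omega) a T hT ?_ _ ?_
  · intro x
    obtain ⟨β, hβ, hx⟩ := hcov x
    obtain ⟨I, hI, hIx⟩ := Finset.mem_image.mp hx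
    exact ⟨β, hβ, I, (Finset.mem_powersetCard.mp hI).2, hIx.symm⟩
  · have hh' : (0 : ℝ) < h := by exact_mod_cast hh
    have hh1 : (1 : ℝ) ≤ h := by exact_mod_cast hh
    have hK' : (0 : ℝ) < K := by exact_mod_cast hK
    have h1 := pow_le_two_choose h hh
    rw [← hKdef] at h1
    have h2 := log_choose_le h hh
    rw [← hKdef] at h2
    have h3 : ((h : ℝ) + 1) ^ h ≤ Real.exp 1 * (h : ℝ) ^ h := by
      have e1 : (h : ℝ) + 1 = (1 / h + 1) * h := by field_simp; ring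
      have e2 : (1 / (h : ℝ) + 1) ^ h ≤ Real.exp (1 / h) ^ h :=
        pow_le_pow_left₀ (by positivity) (Real.add_one_le_exp _) h
      have e3 : Real.exp (1 / h) ^ h = Real.exp 1 := by
        rw [← Real.exp_nat_mul]; congr 1; field_simp
      rw [e1, mul_pow]
      exact mul_le_mul_of_nonneg_right (e3 ▸ e2) (by positivity)
    have he := Real.exp_one_lt_d9
    have hl := Real.log_two_gt_d9
    have hlog0 : 0 ≤ Real.log h := Real.log_nonneg hh1
    have hlog1 : Real.log h ≤ Real.log ((h + 1 : ℕ) : ℝ) :=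
      Real.log_le_log hh' (by push_cast; linarith)
    set L : ℝ := (Nat.log 2 K : ℝ) with hL
    have hL0 : 0 ≤ L := by positivity
    have ht : 2 * Real.exp 1 * (L + 1) < 8 * ((h + 1 : ℕ) : ℝ) * (1 + Real.log ((h + 1 : ℕ) : ℝ)) := by
      have a1 : 2 * Real.exp 1 * L ≤ 8 * (L * Real.log 2) := by nlinarith
      have a2 : (h : ℝ) * (1 + Real.log h) ≤ h * (1 + Real.log ((h + 1 : ℕ) : ℝ)) :=
        mul_le_mul_of_nonneg_left (by linarith) hh'.le
      have a3 : ((h + 1 : ℕ) : ℝ) = h + 1 := by push_cast; ring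
      generalize Real.log ((h + 1 : ℕ) : ℝ) = Λ at *
      rw [a3]
      nlinarith
    have hf : (0 : ℝ) < (h.factorial : ℝ) := by positivity
    rw [div_lt_iff₀ (by positivity), Nat.factorial_succ]
    have hhp : (0 : ℝ) < (h : ℝ) ^ h := by positivity
    calc ((Nat.log 2 K + 1 : ℕ) : ℝ) * ((h * h : ℕ) : ℝ) ^ h * (h + 1) ^ (h + 1)
        = (L + 1) * (h + 1) * (((h * h : ℕ) : ℝ) ^ h * (h + 1) ^ h) := by
          rw [hL]; push_cast; ring
      _ ≤ (L + 1) * (h + 1) * ((2 * (h.factorial : ℝ) * K) * (Real.exp 1 * (h : ℝ) ^ h)) := by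
          refine mul_le_mul_of_nonneg_left ?_ (by positivity)
          exact mul_le_mul h1 h3 (by positivity) (by positivity)
      _ = (2 * Real.exp 1 * (L + 1)) * ((h + 1) * h.factorial * (K * (h : ℝ) ^ h)) := by ring
      _ < (8 * ((h + 1 : ℕ) : ℝ) * (1 + Real.log ((h + 1 : ℕ) : ℝ))) *
          ((h + 1) * h.factorial * (K * (h : ℝ) ^ h)) :=
          mul_lt_mul_of_pos_right ht (by positivity)
      _ = _ := by push_cast; ring

end Pool.Agent.P.MP_54e702_co
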